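import Mathlib
import Pool.Agent.H287Z.QG.Defs
import Pool.Agent.H287Z.QG.CharDefs
import Pool.Agent.H287Z.QG.Char

set_option autoImplicit false

open scoped TensorProduct

namespace Pool.Agent.Results.MP_96eab8_al.ACrossedCounterexample

open Pool.Agent.H287Z.QG

/-- There are a connected closed subgroup `G ⊂ U_4^+` and a nonzero `p ∈ C(G)_central` with
`π_Q(p) = 0` for every `Q ∈ U_4`. -/
theorem result :
    ∃ (A : Type) (_ : CStarAlgebra A) (u : Matrix (Fin 4) (Fin 4) A)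
      (P : Type) (_ : Ring P) (_ : StarRing P) (_ : Algebra ℂ P) (_ : StarModule ℂ P)
      (w : Matrix (Fin 4) (Fin 4) P) (j : P →⋆ₐ[ℂ] A) (Δ : P →⋆ₐ[ℂ] P ⊗[ℂ] P),
      IsCMQG u ∧ IsPol u w j ∧ IsFull j ∧ IsComul Δ w ∧ Connected Δ ∧
      ∃ p ∈ Central j Δ, p ≠ 0 ∧
        ∀ Q : Matrix.unitaryGroup (Fin 4) ℂ, torusMap u Q p = 0 :=
  char_example

end Pool.Agent.Results.MP_96eab8_al.ACrossedCounterexample
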